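import Pool.Agent.helper27.CHS.Spec

/-!
# Project chs (MP_5628fe_nt), row SG
-/

set_option autoImplicit false

open Finset

namespace Pool.Agent.CHS

open Finset Pool.Agent.SX

theorem SG_tel (m : ℕ) (M : ℕ) (hM : m ≤ M) :
    ∑ n ∈ Ico m M, (1 / ((n : ℝ) - 1) - 1 / (n : ℝ)) = 1 / ((m : ℝ) - 1) - 1 / ((M : ℝ) - 1) := by
  induction M, hM using Nat.le_induction with
  | base => simp
  | succ M hM ih =>
    rw [Finset.sum_Ico_succ_top hM, ih]
    push_cast
    ring

theorem SG_tail (F : Finset ℕ) (m : ℕ) (hm : 2 ≤ m) (hF : ∀ n ∈ F, m ≤ n) :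
    ∑ n ∈ F, (1 / ((n : ℝ) - 1) - 1 / (n : ℝ)) ≤ 1 / ((m : ℝ) - 1) := by
  obtain ⟨M, hM⟩ : ∃ M : ℕ, m ≤ M ∧ ∀ n ∈ F, n < M := by
    refine ⟨m + F.sup id + 1, by omega, fun n hn => ?_⟩
    have := Finset.le_sup (f := id) hn
    simp only [id] at this
    omega
  have hm' : (2 : ℝ) ≤ m := by exact_mod_cast hm
  have hsub : F ⊆ Ico m M := fun n hn => Finset.mem_Ico.2 ⟨hF n hn, hM.2 n hn⟩
  have h1 : ∑ n ∈ F, (1 / ((n : ℝ) - 1) - 1 / (n : ℝ)) ≤
      ∑ n ∈ Ico m M, (1 / ((n : ℝ) - 1) - 1 / (n : ℝ)) := by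
    apply Finset.sum_le_sum_of_subset_of_nonneg hsub
    intro n hn _
    have h2 : (2 : ℝ) ≤ n := by
      have := (Finset.mem_Ico.1 hn).1
      exact_mod_cast hm.trans this
    rw [sub_nonneg]
    exact one_div_le_one_div_of_le (by linarith) (by linarith)
  refine h1.trans ?_
  rw [SG_tel m M hM.1]
  have hMr : (2 : ℝ) ≤ M := by exact_mod_cast hm.trans hM.1
  have : 0 ≤ 1 / ((M : ℝ) - 1) := by
    apply one_div_nonneg.2
    linarith
  linarith

theorem SG (hPA : PA_stmt) (hABL : Pool.Agent.SX.ABL_stmt) (hLPM : Pool.Agent.SX.LPM_stmt) :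
    SG_stmt := by
  intro s t hs hst
  have hmem := hPA.1
  have hs0 : 0 < s := by linarith
  have ht0 : 0 < t := by linarith
  have hbd : ∀ i ∈ PB s t, (0 : ℝ) < i ∧ 0 < Real.log i ∧ s ≤ Real.log i ∧ Real.log i ≤ t ∧
      Real.exp s ≤ i ∧ i.Prime := by
    intro i hi
    obtain ⟨hp, h1, h2⟩ := (hmem s t i).1 hi
    have hi0 : (0 : ℝ) < i := by exact_mod_cast hp.pos
    refine ⟨hi0, Real.log_pos (by exact_mod_cast hp.one_lt), h1, h2.le, ?_, hp⟩
    calc Real.exp s ≤ Real.exp (Real.log i) := Real.exp_le_exp.2 h1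
      _ = i := Real.exp_log hi0
  have hw18 : (2 : ℝ) ^ 18 ≤ Real.exp s := by
    have h5 : Real.log ((2 : ℝ) ^ 18) ≤ s := by
      rw [Real.log_pow]
      push_cast
      have := Real.log_two_lt_d9
      nlinarith
    calc (2 : ℝ) ^ 18 = Real.exp (Real.log ((2 : ℝ) ^ 18)) := (Real.exp_log (by positivity)).symm
      _ ≤ Real.exp s := Real.exp_le_exp.2 h5
  have key := hABL (PB s t) (fun p => Real.log p) (fun p => Real.log p / p) s t 1 (1090 / 1000)
    (fun u => 1 / u) hst (by norm_num) (by norm_num)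
    (by
      intro a ha b hb hab
      exact Real.log_lt_log (hbd a ha).1 (by exact_mod_cast hab))
    (fun i hi => ⟨(hbd i hi).2.2.1, (hbd i hi).2.2.2.1⟩)
    (by
      intro a ha b hb hab
      exact one_div_le_one_div_of_le (lt_of_lt_of_le hs0 ha.1) hab)
    (by
      intro u hu
      exact one_div_nonneg.2 (hs0.le.trans hu.1))
    (by
      intro i hi
      obtain ⟨hi0, hli, h1, h2, hwi, hp⟩ := hbd i hi
      have h3 := hLPM (Real.exp s) i hw18 hwi
      rw [Real.log_div hi0.ne' (Real.exp_pos _).ne', Real.log_exp] at h3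
      refine le_trans ?_ h3
      apply Finset.sum_le_sum_of_subset_of_nonneg
      · intro j hj
        obtain ⟨hjF, hji⟩ := Finset.mem_filter.1 hj
        unfold pc
        rw [Finset.mem_filter, Finset.mem_range, Nat.floor_natCast]
        refine ⟨by omega, (hbd j hjF).2.2.2.2.2, (hbd j hjF).2.2.2.2.1⟩
      · intro j _ _
        exact div_nonneg (Real.log_natCast_nonneg _) (Nat.cast_nonneg _))
  have hint : (∫ u in s..t, 1 / u) = Real.log (t / s) := integral_one_div_of_pos hs0 ht0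
  rw [hint] at key
  have hsum : ∑ i ∈ PB s t, Real.log i / i * (1 / Real.log i) = ∑ i ∈ PB s t, 1 / (i : ℝ) := by
    apply Finset.sum_congr rfl
    intro i hi
    obtain ⟨hi0, hli, _⟩ := hbd i hi
    field_simp
  rw [hsum] at key
  -- the difference
  obtain ⟨m, hm⟩ : ∃ m : ℕ, m = ⌈Real.exp s⌉₊ := ⟨_, rfl⟩
  have hm1 : Real.exp s ≤ m := by rw [hm]; exact Nat.le_ceil _
  have hq := Real.quadratic_le_exp_of_nonneg hs0.le
  have hm2 : 2 ≤ m := by
    have : (2 : ℝ) ≤ m := by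
      refine le_trans ?_ hm1
      nlinarith
    exact_mod_cast this
  have htail := SG_tail (PB s t) m hm2 (by
    intro n hn
    rw [hm]
    exact Nat.ceil_le.2 (hbd n hn).2.2.2.2.1)
  have hsig : sig s t = ∑ i ∈ PB s t, 1 / (i : ℝ) +
      ∑ n ∈ PB s t, (1 / ((n : ℝ) - 1) - 1 / (n : ℝ)) := by
    unfold sig
    rw [← Finset.sum_add_distrib]
    apply Finset.sum_congr rfl
    intro i _
    ring
  have hsmall : 1 / ((m : ℝ) - 1) ≤ 9 / 10 / s := by
    rw [div_le_div_iff₀ (by nlinarith) hs0]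
    nlinarith
  have hfin : (1090 / 1000 : ℝ) * (1 / s) + 9 / 10 / s ≤ 2 / s := by
    have : (1090 / 1000 : ℝ) * (1 / s) + 9 / 10 / s = (199 / 100) / s := by ring
    rw [this]
    exact div_le_div_of_nonneg_right (by norm_num) hs0.le
  rw [hsig]
  linarith

end Pool.Agent.CHS
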